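import Pool.Agent.Q276.DA.Stm

set_option autoImplicit false

/-! Project DA (helper276), job DA-FARA: bound of `|S|` by the Lambert series. -/

namespace Pool.Agent.Q238.DA

open Complex Pool.Agent.Q276.DA

theorem sg_div (n : ℕ) (hn : 0 < n) :
    ∑ x ∈ n.divisorsAntidiagonal, (1 : ℂ) / (x.1 : ℂ) = (sg n : ℂ) / (n : ℂ) := by
  unfold sg
  have hn' : (n : ℂ) ≠ 0 := by exact_mod_cast hn.ne'
  rw [Nat.sum_divisorsAntidiagonal (fun x _ => (1 : ℂ) / (x : ℂ))]
  rw [← Nat.sum_div_divisors n (fun d => d), Nat.cast_sum, Finset.sum_div]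
  apply Finset.sum_congr rfl
  intro d hd
  have hd1 := Nat.dvd_of_mem_divisors hd
  have hd0 : (d : ℂ) ≠ 0 := by
    exact_mod_cast (Nat.pos_of_mem_divisors hd).ne'
  rw [Nat.cast_div hd1 hd0]
  field_simp

/-- the Lambert series of `G` -/
theorem G_lambert (z : ℂ) (hz : 0 < z.re) :
    HasSum (fun d : ℕ+ => (1 / (d : ℂ)) * (cexp (-z) ^ (d : ℕ) / (1 - cexp (-z) ^ (d : ℕ)))) (G z) := by
  set r := cexp (-z) with hr
  have hr1 : ‖r‖ < 1 := by
    rw [hr, Complex.norm_exp, Complex.neg_re, Real.exp_lt_one_iff]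
    linarith
  set f : ℕ+ × ℕ+ → ℂ := fun p => (1 / (p.1 : ℂ)) * r ^ (p.1 * p.2 : ℕ) with hf
  have hs : Summable f := by
    refine Summable.of_norm_bounded (summable_prod_mul_pow 0 hr1).norm ?_
    intro p
    simp only [hf, pow_zero, one_mul, norm_mul]
    have h1 : ‖(1 / (p.1 : ℂ))‖ ≤ 1 := by
      rw [norm_div, norm_one, Complex.norm_natCast]
      have : (1 : ℝ) ≤ (p.1 : ℕ) := by exact_mod_cast p.1.pos
      rw [div_le_one (by linarith)]
      exact this
    calc ‖(1 / (p.1 : ℂ))‖ * ‖r ^ (p.1 * p.2 : ℕ)‖ ≤ 1 * ‖r ^ (p.1 * p.2 : ℕ)‖ :=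
          mul_le_mul_of_nonneg_right h1 (norm_nonneg _)
      _ = _ := one_mul _
  have hsum := hs.hasSum
  -- first way: by the value of the product
  have h1 : HasSum (fun n : ℕ+ => ((sg n : ℂ) / (n : ℂ)) * r ^ (n : ℕ)) (∑' p, f p) := by
    have h2 := (sigmaAntidiagonalEquivProd.hasSum_iff (f := f)).2 hsum
    refine h2.sigma (fun n => ?_)
    have h3 := hasSum_fintype (fun c : Nat.divisorsAntidiagonal (n : ℕ) =>
      (f ∘ sigmaAntidiagonalEquivProd) ⟨n, c⟩)
    have h4 : ∑ c : Nat.divisorsAntidiagonal (n : ℕ), (f ∘ sigmaAntidiagonalEquivProd) ⟨n, c⟩ =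
        ((sg n : ℂ) / (n : ℂ)) * r ^ (n : ℕ) := by
      rw [← sg_div n n.pos, Finset.sum_mul]
      have h5 : ∀ c : Nat.divisorsAntidiagonal (n : ℕ), (f ∘ sigmaAntidiagonalEquivProd) ⟨n, c⟩ =
          (1 : ℂ) / (c.1.1 : ℂ) * r ^ (n : ℕ) := by
        intro c
        have h6 := (Nat.mem_divisorsAntidiagonal.1 c.2).1
        show (1 : ℂ) / (c.1.1 : ℂ) * r ^ (c.1.1 * c.1.2) = _
        rw [h6]
      rw [Finset.sum_congr rfl (fun c _ => h5 c)]
      exact Finset.sum_coe_sort (Nat.divisorsAntidiagonal (n : ℕ))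
        (fun x => (1 : ℂ) / (x.1 : ℂ) * r ^ (n : ℕ))
    rw [h4] at h3
    exact h3
  have h2 : ∑' p, f p = G z := by
    rw [← h1.tsum_eq, tsum_pnat_eq_tsum_succ (f := fun n => ((sg n : ℂ) / (n : ℂ)) * r ^ n)]
    unfold G
    apply tsum_congr
    intro k
    rw [hr, ← Complex.exp_nat_mul]
    push_cast
    congr 2
    ring
  rw [h2] at hsum
  refine hsum.prod_fiberwise (fun d => ?_)
  simp only [hf]
  apply HasSum.mul_left
  have hd : ‖r ^ (d : ℕ)‖ < 1 := by
    rw [norm_pow]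
    exact pow_lt_one₀ (norm_nonneg _) hr1 d.ne_zero
  have h3 := (hasSum_geometric_of_norm_lt_one hd).mul_left (r ^ (d : ℕ))
  have h4 : HasSum (fun c : ℕ => r ^ ((d : ℕ) * (c + 1))) (r ^ (d : ℕ) / (1 - r ^ (d : ℕ))) := by
    rw [div_eq_mul_inv]
    have h5 : (fun c : ℕ => r ^ ((d : ℕ) * (c + 1))) =
        fun c : ℕ => r ^ (d : ℕ) * (r ^ (d : ℕ)) ^ c := by
      funext c
      rw [← pow_mul, ← pow_add]
      congr 1
      ring
    rw [h5]
    exact h3
  have h6 := (Equiv.pnatEquivNat.hasSum_iff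
    (f := fun c : ℕ => r ^ ((d : ℕ) * (c + 1)))).2 h4
  have h7 : ((fun c : ℕ => r ^ ((d : ℕ) * (c + 1))) ∘ Equiv.pnatEquivNat) =
      fun c : ℕ+ => r ^ ((d : ℕ) * (c : ℕ)) := by
    funext c
    show r ^ ((d : ℕ) * (PNat.natPred c + 1)) = _
    rw [PNat.natPred_add_one]
  rw [h7] at h6
  exact h6

theorem T_im (a b : ℝ) (ha : 0 < a) :
    (cexp (-((a : ℂ) + b * I)) / (1 - cexp (-((a : ℂ) + b * I)))).im =
      -(Real.sin b / (2 * (Real.cosh a - Real.cos b))) := by
  have hre : (cexp (-((a : ℂ) + b * I))).re = Real.exp (-a) * Real.cos b := by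
    rw [Complex.exp_re]
    simp
  have him : (cexp (-((a : ℂ) + b * I))).im = -(Real.exp (-a) * Real.sin b) := by
    rw [Complex.exp_im]
    simp
  rw [Complex.div_im, Complex.normSq_apply]
  simp only [Complex.sub_re, Complex.sub_im, Complex.one_re, Complex.one_im, hre, him]
  have hcosh : Real.cosh a = (Real.exp a + Real.exp (-a)) / 2 := Real.cosh_eq a
  have hE : Real.exp a * Real.exp (-a) = 1 := by rw [← Real.exp_add, add_neg_cancel, Real.exp_zero]
  have hc1 : 1 < Real.cosh a := by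
    rw [Real.one_lt_cosh]
    exact ha.ne'
  have hc2 := Real.cos_le_one b
  have hN : (1 - Real.exp (-a) * Real.cos b) * (1 - Real.exp (-a) * Real.cos b) +
      (0 - -(Real.exp (-a) * Real.sin b)) * (0 - -(Real.exp (-a) * Real.sin b)) =
      2 * Real.exp (-a) * (Real.cosh a - Real.cos b) := by
    rw [hcosh]
    linear_combination (Real.exp (-a)) ^ 2 * (Real.sin_sq_add_cos_sq b) - hE
  rw [hN]
  have h1 : 0 < Real.cosh a - Real.cos b := by linarith
  have h2 := (Real.exp_pos (-a)).ne'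
  field_simp
  ring

theorem first_bound (ρ y : ℝ) (hρ : 0 < ρ) (hy : 0 < y) (hy2 : y ≤ Real.pi) :
    |ρ * (Real.sin y / (2 * (Real.cosh ρ - Real.cos y)))| ≤ ρ * y / (ρ ^ 2 + y ^ 2) := by
  have hs0 : 0 ≤ Real.sin y := Real.sin_nonneg_of_nonneg_of_le_pi hy.le hy2
  have hs1 : Real.sin y ≤ y := Real.sin_le hy.le
  have hcosh : 1 + ρ ^ 2 / 2 ≤ Real.cosh ρ := by
    have h1 : Real.cosh ρ = 1 + 2 * Real.sinh (ρ / 2) ^ 2 := by
      have h2 := Real.cosh_two_mul (ρ / 2)
      have h3 := Real.cosh_sq (ρ / 2)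
      rw [mul_div_cancel₀ ρ two_ne_zero] at h2
      linarith
    have h2 : ρ / 2 ≤ Real.sinh (ρ / 2) := Real.self_le_sinh_iff.2 (by positivity)
    nlinarith
  have hcos : 1 - Real.cos y = 2 * Real.sin (y / 2) ^ 2 := by
    have h2 := Real.cos_two_mul (y / 2)
    have h3 := Real.sin_sq_add_cos_sq (y / 2)
    rw [mul_div_cancel₀ y two_ne_zero] at h2
    linarith
  have hsin : Real.sin y = 2 * Real.sin (y / 2) * Real.cos (y / 2) := by
    have h2 := Real.sin_two_mul (y / 2)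
    rwa [mul_div_cancel₀ y two_ne_zero] at h2
  have hs2 : 0 < Real.sin (y / 2) := Real.sin_pos_of_pos_of_lt_pi (by positivity) (by linarith [Real.pi_pos])
  have htan : y / 2 * Real.cos (y / 2) ≤ Real.sin (y / 2) := by
    rcases eq_or_lt_of_le hy2 with h | h
    · rw [h, Real.cos_pi_div_two, Real.sin_pi_div_two]
      norm_num
    · have h1 := Real.le_tan (x := y / 2) (by positivity) (by linarith)
      have h2 : 0 < Real.cos (y / 2) := Real.cos_pos_of_mem_Ioo ⟨by linarith [Real.pi_pos], by linarith⟩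
      rw [Real.tan_eq_sin_div_cos, le_div_iff₀ h2] at h1
      exact h1
  have hden : 0 < ρ ^ 2 + 2 * (1 - Real.cos y) := by
    rw [hcos]
    positivity
  have hden2 : ρ ^ 2 + 2 * (1 - Real.cos y) ≤ 2 * (Real.cosh ρ - Real.cos y) := by linarith
  rw [abs_of_nonneg (by
    have : 0 < 2 * (Real.cosh ρ - Real.cos y) := by linarith
    positivity)]
  calc ρ * (Real.sin y / (2 * (Real.cosh ρ - Real.cos y)))
      ≤ ρ * (Real.sin y / (ρ ^ 2 + 2 * (1 - Real.cos y))) := by gcongr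
    _ ≤ ρ * y / (ρ ^ 2 + y ^ 2) := by
        rw [← mul_div_assoc, div_le_div_iff₀ hden (by positivity)]
        have h1 : Real.sin y * (ρ ^ 2 + y ^ 2) ≤ y * (ρ ^ 2 + 2 * (1 - Real.cos y)) := by
          have h2 : y * Real.sin y ≤ 2 * (1 - Real.cos y) := by
            rw [hcos, hsin]
            nlinarith
          nlinarith [sq_nonneg ρ, sq_nonneg y]
        nlinarith

theorem gen_bound (a b : ℝ) (ha : 0 < a) :
    |Real.sin b / (Real.cosh a - Real.cos b)| ≤ 1 / a := by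
  have hc1 : 1 < Real.cosh a := by
    rw [Real.one_lt_cosh]
    exact ha.ne'
  have hc2 := Real.cos_le_one b
  have h1 : 0 < Real.cosh a - Real.cos b := by linarith
  rw [abs_div, abs_of_pos h1, div_le_div_iff₀ h1 ha, one_mul]
  have h2 : a ≤ Real.sinh a := Real.self_le_sinh_iff.2 ha.le
  have h3 : |Real.sin b * Real.sinh a| ≤ |Real.cosh a - Real.cos b| := by
    apply sq_le_sq.1
    have h4 := Real.cosh_sq a
    have h5 := Real.sin_sq_add_cos_sq b
    have h6 : (Real.cosh a - Real.cos b) ^ 2 - (Real.sin b * Real.sinh a) ^ 2 =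
        (1 - Real.cosh a * Real.cos b) ^ 2 := by
      have h7 : Real.sin b ^ 2 = 1 - Real.cos b ^ 2 := by linarith
      have h8 : Real.sinh a ^ 2 = Real.cosh a ^ 2 - 1 := by linarith
      rw [mul_pow, h7, h8]
      ring
    nlinarith [sq_nonneg (1 - Real.cosh a * Real.cos b)]
  rw [abs_of_pos h1, abs_mul, abs_of_pos (by linarith : 0 < Real.sinh a)] at h3
  nlinarith [abs_nonneg (Real.sin b)]

theorem t_FARA : S_FARA := by
  intro ρ u hρ hu hy
  have hu0 : 0 < u := by linarith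
  set y := ρ * u with hydef
  have hy0 : 0 < y := by positivity
  have hzp : zp ρ u = (ρ : ℂ) + (y : ℂ) * I := by
    unfold zp
    rw [hydef]
    push_cast
    ring
  have hre : 0 < (zp ρ u).re := by
    rw [hzp]
    simpa using hρ
  have h1 := G_lambert (zp ρ u) hre
  have h2 := (Complex.hasSum_iff _ _).1 h1
  have h3 := h2.2.mul_left (-ρ)
  have hS : S ρ u = -ρ * (G (zp ρ u)).im := rfl
  rw [← hS] at h3
  -- the terms
  have hterm : ∀ d : ℕ+, -ρ * ((1 / (d : ℂ)) * (cexp (-(zp ρ u)) ^ (d : ℕ) /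
      (1 - cexp (-(zp ρ u)) ^ (d : ℕ)))).im =
      ρ * ((1 / (d : ℝ)) * (Real.sin (d * y) / (2 * (Real.cosh (d * ρ) - Real.cos (d * y))))) := by
    intro d
    have hd : (0 : ℝ) < (d : ℝ) := by exact_mod_cast d.pos
    have h4 : cexp (-(zp ρ u)) ^ (d : ℕ) =
        cexp (-(((d * ρ : ℝ) : ℂ) + ((d * y : ℝ) : ℂ) * I)) := by
      rw [← Complex.exp_nat_mul, hzp]
      congr 1
      push_cast
      ring
    have h5 : (1 / (d : ℂ)) = ((1 / (d : ℝ) : ℝ) : ℂ) := by push_cast; rfl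
    rw [h4, h5, Complex.im_ofReal_mul, T_im _ _ (by positivity)]
    ring
  have hB1 : HasSum (fun d : ℕ+ => (1 / 2 : ℝ) * (1 / (d : ℝ) ^ 2)) (1 / 2 * (Real.pi ^ 2 / 6)) := by
    apply HasSum.mul_left
    have h4 := hasSum_zeta_two
    have h5 := (hasSum_nat_add_iff' 1).2 h4
    have h6 := (Equiv.pnatEquivNat.hasSum_iff
      (f := fun n : ℕ => (1 : ℝ) / ((n + 1 : ℕ) : ℝ) ^ 2)).2 (by simpa using h5)
    have h7 : ((fun n : ℕ => (1 : ℝ) / ((n + 1 : ℕ) : ℝ) ^ 2) ∘ Equiv.pnatEquivNat) =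
        fun d : ℕ+ => (1 : ℝ) / (d : ℝ) ^ 2 := by
      funext c
      show (1 : ℝ) / ((PNat.natPred c + 1 : ℕ) : ℝ) ^ 2 = _
      rw [PNat.natPred_add_one]
    rw [h7] at h6
    simpa using h6
  have hB2 : HasSum (fun d : ℕ+ => if d = 1 then u / (1 + u ^ 2) - 1 / 2 else 0)
      (u / (1 + u ^ 2) - 1 / 2) := hasSum_ite_eq 1 _
  have hB := hB1.add hB2
  have hfin := h3.norm_le_of_bounded hB (by
    intro d
    rw [hterm d, Real.norm_eq_abs]
    have hd : (0 : ℝ) < (d : ℝ) := by exact_mod_cast d.pos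
    by_cases h : d = 1
    · subst h
      simp only [PNat.one_coe, Nat.cast_one, one_mul, div_one, one_pow, if_true]
      refine (first_bound ρ y hρ hy0 hy).trans (le_of_eq ?_)
      rw [hydef]
      field_simp
      ring
    · simp only [if_neg h, add_zero]
      have h4 := gen_bound (d * ρ) (d * y) (by positivity)
      have haux : ∀ s D d' : ℝ, ρ * ((1 / d') * (s / (2 * D))) = (ρ / (2 * d')) * (s / D) := by
        intro s D d'
        ring
      have h5 : ρ * ((1 / (d : ℝ)) * (Real.sin (d * y) /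
          (2 * (Real.cosh (d * ρ) - Real.cos (d * y))))) =
          (ρ / (2 * d)) * (Real.sin (d * y) / (Real.cosh (d * ρ) - Real.cos (d * y))) :=
        haux _ _ _
      rw [h5, abs_mul, abs_of_pos (by positivity : 0 < ρ / (2 * (d : ℝ)))]
      calc ρ / (2 * d) * |Real.sin (d * y) / (Real.cosh (d * ρ) - Real.cos (d * y))|
          ≤ ρ / (2 * d) * (1 / (d * ρ)) := by gcongr
        _ = _ := by
            field_simp)
  rw [Real.norm_eq_abs] at hfin
  linarith

end Pool.Agent.Q238.DA
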