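import Pool.Agent.Q276.DA.Stm

set_option autoImplicit false

/-! Project DA (helper276), job DA-LAM: saddle points for all `lam ≥ 1/15`. -/

namespace Pool.Agent.Q238.DA

open Complex Pool.Agent.Q276.DA Filter Topology

theorem im_low (hMODE : S_MODE) (hBND : S_BND) (ρ u : ℝ) (hρ : 0 < ρ) (hρ1 : ρ ≤ 1 / 100)
    (hu : 2 / 5 ≤ u) (hu1 : u ≤ 21 / 20) : 1 / (5 * ρ ^ 2) ≤ -(E (zp ρ u)).im := by
  set W : ℝ := 1 + u ^ 2 with hW
  have hW0 : 1 ≤ W := by
    rw [hW]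
    nlinarith
  have hW1 : W ≤ 841 / 400 := by
    rw [hW]
    nlinarith
  set wb : ℂ := 1 - (u : ℂ) * I with hwb
  have hzre : 0 < (zp ρ u).re := by
    unfold zp
    simpa using hρ
  have hz0 : zp ρ u ≠ 0 := by
    intro h
    rw [h] at hzre
    simp at hzre
  have hρc : (ρ : ℂ) ≠ 0 := by exact_mod_cast hρ.ne'
  have hWc : (W : ℂ) ≠ 0 := by exact_mod_cast (by linarith : (0 : ℝ) < W).ne'
  have hmul : zp ρ u * wb = (ρ : ℂ) * W := by
    unfold zp
    rw [hwb, hW]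
    push_cast
    linear_combination (-(ρ : ℂ) * (u : ℂ) ^ 2) * Complex.I_sq
  have hinv : (zp ρ u)⁻¹ = wb / ((ρ : ℂ) * W) := by
    rw [← hmul]
    have hwb0 : wb ≠ 0 := by
      intro h
      rw [h, mul_zero] at hmul
      exact mul_ne_zero hρc hWc hmul.symm
    field_simp
  set x : ℂ := 4 * Real.pi ^ 2 / zp ρ u with hx
  have hx' : x = ((4 * Real.pi ^ 2 / (ρ * W) : ℝ) : ℂ) * wb := by
    rw [hx, div_eq_mul_inv, hinv]
    push_cast
    ring
  have hxre : x.re = 4 * Real.pi ^ 2 / (ρ * W) := by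
    rw [hx', Complex.re_ofReal_mul, hwb]
    simp
  have hpi1 : 3.14 < Real.pi := Real.pi_gt_d2
  have hpi2 : Real.pi < 3.15 := Real.pi_lt_d2
  have hpisq1 : 9.8 < Real.pi ^ 2 := by nlinarith
  have hxbig : 6 ≤ x.re := by
    rw [hxre, le_div_iff₀ (by positivity)]
    nlinarith
  have hE := ((hBND x).1 hxbig).1
  have hexp : Real.exp (-x.re) ≤ 1 / x.re := by
    rw [Real.exp_neg, ← one_div]
    apply one_div_le_one_div_of_le (by linarith)
    have := Real.add_one_le_exp x.re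
    linarith
  have hmode := hMODE (zp ρ u) hzre
  rw [← hx] at hmode
  have hform : E (zp ρ u) = ((Real.pi ^ 2 / (6 * ρ ^ 2 * W ^ 2) : ℝ) : ℂ) * wb ^ 2 -
      ((1 / (2 * ρ * W) : ℝ) : ℂ) * wb + ((1 / 24 : ℝ) : ℂ) -
      ((4 * Real.pi ^ 2 / (ρ ^ 2 * W ^ 2) : ℝ) : ℂ) * (wb ^ 2 * E x) := by
    rw [hmode]
    have h1 : Real.pi ^ 2 / (6 * zp ρ u ^ 2) = (Real.pi : ℂ) ^ 2 / 6 * ((zp ρ u)⁻¹) ^ 2 := by
      rw [inv_pow]
      field_simp
    have h2 : 1 / (2 * zp ρ u) = 1 / 2 * (zp ρ u)⁻¹ := by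
      field_simp
    have h3 : 4 * (Real.pi : ℂ) ^ 2 / zp ρ u ^ 2 = 4 * (Real.pi : ℂ) ^ 2 * ((zp ρ u)⁻¹) ^ 2 := by
      rw [inv_pow]
      field_simp
    rw [h1, h2, h3, hinv]
    push_cast
    field_simp
  have hwb2 : (wb ^ 2).im = -2 * u := by
    rw [hwb, pow_two, Complex.mul_im]
    simp
    ring
  have hwbim : wb.im = -u := by
    rw [hwb]
    simp
  have hwbn : ‖wb ^ 2‖ = W := by
    rw [norm_pow, hwb, Complex.sq_norm, Complex.normSq_apply]
    simp [hW]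
    ring
  have him : -(E (zp ρ u)).im = 2 * u * (Real.pi ^ 2 / (6 * ρ ^ 2 * W ^ 2)) -
      u * (1 / (2 * ρ * W)) + (4 * Real.pi ^ 2 / (ρ ^ 2 * W ^ 2)) * (wb ^ 2 * E x).im := by
    rw [hform, Complex.sub_im, Complex.add_im, Complex.sub_im, Complex.im_ofReal_mul,
      Complex.im_ofReal_mul, Complex.im_ofReal_mul, Complex.ofReal_im, hwb2, hwbim]
    ring
  have hlast : -(51 / 50 * ρ * W ^ 2 / (4 * Real.pi ^ 2)) ≤ (wb ^ 2 * E x).im := by
    have h1 : |(wb ^ 2 * E x).im| ≤ W * (51 / 50 * (1 / x.re)) := by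
      refine (Complex.abs_im_le_norm _).trans ?_
      rw [norm_mul, hwbn]
      have : ‖E x‖ ≤ 51 / 50 * (1 / x.re) := hE.trans (by gcongr)
      gcongr
    have h2 : W * (51 / 50 * (1 / x.re)) = 51 / 50 * ρ * W ^ 2 / (4 * Real.pi ^ 2) := by
      rw [hxre]
      field_simp
    rw [h2] at h1
    exact (abs_le.1 h1).1
  rw [him]
  have h5 : (4 * Real.pi ^ 2 / (ρ ^ 2 * W ^ 2)) * -(51 / 50 * ρ * W ^ 2 / (4 * Real.pi ^ 2)) ≤
      (4 * Real.pi ^ 2 / (ρ ^ 2 * W ^ 2)) * (wb ^ 2 * E x).im := by gcongr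
  have h6 : (4 * Real.pi ^ 2 / (ρ ^ 2 * W ^ 2)) * -(51 / 50 * ρ * W ^ 2 / (4 * Real.pi ^ 2)) =
      -(51 / 50 * ρ) / ρ ^ 2 := by
    field_simp
  rw [h6] at h5
  have h7 : 1 / (5 * ρ ^ 2) ≤ 2 * u * (Real.pi ^ 2 / (6 * ρ ^ 2 * W ^ 2)) -
      u * (1 / (2 * ρ * W)) + -(51 / 50 * ρ) / ρ ^ 2 := by
    have e1 : 2 * u * (Real.pi ^ 2 / (6 * ρ ^ 2 * W ^ 2)) -
      u * (1 / (2 * ρ * W)) + -(51 / 50 * ρ) / ρ ^ 2 =
      (Real.pi ^ 2 / 3 * (u / W ^ 2) - ρ / 2 * (u / W) - 51 / 50 * ρ) / ρ ^ 2 := by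
      field_simp
      ring
    have e2 : 1 / (5 * ρ ^ 2) = (1 / 5) / ρ ^ 2 := by
      field_simp
    rw [e1, e2]
    have e3 : 9 / 100 ≤ u / W ^ 2 := by
      rw [le_div_iff₀ (by positivity)]
      nlinarith
    have e4 : u / W ≤ 1 := by
      rw [div_le_one (by linarith)]
      rw [hW]
      nlinarith
    gcongr
    have e5 : 9.8 / 3 * (9 / 100) ≤ Real.pi ^ 2 / 3 * (u / W ^ 2) := by gcongr
    have e6 : ρ / 2 * (u / W) ≤ ρ / 2 * 1 := by gcongr
    linarith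
  linarith

theorem t_LAM (hSER : S_SER) (hBND : S_BND) (hMODE : S_MODE) (hROOT : S_ROOT) : S_LAM := by
  intro lam hlam
  have hTform : ∀ ρ u : ℝ, T ρ u = 24 * (1 + u ^ 2) ^ 2 * (ρ ^ 2 * (E (zp ρ u)).re) := by
    intro ρ u
    unfold T e zp
    rw [← Complex.ofReal_pow, Complex.re_ofReal_mul]
  have hzre : ∀ ρ u : ℝ, (zp ρ u).re = ρ := by
    intro ρ u
    unfold zp
    simp
  have hEc : ∀ ρ u : ℝ, 0 < ρ → ContinuousAt E (zp ρ u) := by
    intro ρ u hρ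
    exact (((hSER.1 (zp ρ u)) (by rw [hzre]; exact hρ)).2.2.2).continuousAt
  have hzc : Continuous (fun p : ℝ × ℝ => zp p.1 p.2) := by
    unfold zp
    fun_prop
  have hTc : ∀ ρ u : ℝ, 0 < ρ → ContinuousAt (fun r => T r u) ρ := by
    intro ρ u hρ
    simp only [hTform]
    have h1 : ContinuousAt (fun r : ℝ => zp r u) ρ :=
      (hzc.comp (continuous_id.prodMk continuous_const)).continuousAt
    have h2 : ContinuousAt (fun r : ℝ => E (zp r u)) ρ :=
      ContinuousAt.comp (g := E) (f := fun r : ℝ => zp r u) (hEc ρ u hρ) h1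
    have h3 : ContinuousAt (fun r : ℝ => (E (zp r u)).re) ρ :=
      Complex.continuous_re.continuousAt.comp h2
    exact continuousAt_const.mul ((continuousAt_id.pow 2).mul h3)
  choose! U hU using hROOT
  have hpi : 3.14 < Real.pi := Real.pi_gt_d2
  have hUc : ContinuousOn U (Set.Ioc 0 (29 / 10)) := by
    rw [Metric.continuousOn_iff]
    intro ρ hρ ε hε
    obtain ⟨h1, h2, h3, h4, h5⟩ := hU ρ hρ.1 hρ.2
    set δ := min (ε / 2) (min ((U ρ - 2 / 5) / 2) ((21 / 20 - U ρ) / 2)) with hδ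
    have hδ0 : 0 < δ := by
      apply lt_min (by linarith)
      apply lt_min <;> linarith
    have hδ1 : δ ≤ ε / 2 := min_le_left _ _
    have hδ2 : δ ≤ (U ρ - 2 / 5) / 2 := (min_le_right _ _).trans (min_le_left _ _)
    have hδ3 : δ ≤ (21 / 20 - U ρ) / 2 := (min_le_right _ _).trans (min_le_right _ _)
    have hpos : 0 < T ρ (U ρ - δ) := h4 _ (by linarith) (by linarith)
    have hneg : T ρ (U ρ + δ) < 0 := h5 _ (by linarith) (by linarith) (by nlinarith [hρ.1, hρ.2])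
    have e1 := (hTc ρ (U ρ - δ) hρ.1).eventually (lt_mem_nhds hpos)
    have e2 := (hTc ρ (U ρ + δ) hρ.1).eventually (gt_mem_nhds hneg)
    obtain ⟨η, hη, hball⟩ := Metric.eventually_nhds_iff.1 (e1.and e2)
    refine ⟨η, hη, ?_⟩
    intro r hr hdist
    obtain ⟨h6, h7⟩ := hball hdist
    obtain ⟨k1, k2, k3, k4, k5⟩ := hU r hr.1 hr.2
    have h8 : U ρ - δ < U r := by
      by_contra h
      push Not at h
      rcases eq_or_lt_of_le h with h9 | h9
      · rw [← h9, k3] at h6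
        exact lt_irrefl _ h6
      · have := k5 (U ρ - δ) h9 (by linarith) (by nlinarith [hr.1, hr.2])
        linarith
    have h9 : U r < U ρ + δ := by
      by_contra h
      push Not at h
      rcases eq_or_lt_of_le h with h9 | h9
      · rw [h9, k3] at h7
        exact lt_irrefl _ h7
      · have := k4 (U ρ + δ) (by linarith) h9
        linarith
    rw [Real.dist_eq, abs_lt]
    constructor <;> linarith
  set Λ : ℝ → ℝ := fun ρ => -(E (zp ρ (U ρ))).im with hΛ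
  have hΛc : ContinuousOn Λ (Set.Ioc 0 (29 / 10)) := by
    intro ρ hρ
    have h1 : ContinuousWithinAt (fun r => zp r (U r)) (Set.Ioc 0 (29 / 10)) ρ :=
      ContinuousAt.comp_continuousWithinAt (g := fun p : ℝ × ℝ => zp p.1 p.2)
        (f := fun r => (r, U r)) hzc.continuousAt
        (continuousWithinAt_id.prodMk (hUc ρ hρ))
    have h2 : ContinuousWithinAt (fun r => E (zp r (U r))) (Set.Ioc 0 (29 / 10)) ρ :=
      ContinuousAt.comp_continuousWithinAt (g := E) (f := fun r => zp r (U r))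
        (hEc ρ (U ρ) hρ.1) h1
    exact (Complex.continuous_im.continuousAt.comp_continuousWithinAt h2).neg
  set ρ1 : ℝ := 1 / (100 * (1 + lam)) with hρ1
  have hlam0 : 0 < lam := by linarith
  have hρ10 : 0 < ρ1 := by positivity
  have hρ11 : ρ1 ≤ 1 / 100 := by
    rw [hρ1]
    apply one_div_le_one_div_of_le (by norm_num)
    linarith
  have hhigh : lam ≤ Λ ρ1 := by
    obtain ⟨h1, h2, -⟩ := hU ρ1 hρ10 (by linarith)
    have h3 := im_low hMODE hBND ρ1 (U ρ1) hρ10 hρ11 h1.le h2.le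
    refine le_trans ?_ h3
    have h4 : 1 / (5 * ρ1 ^ 2) = 2000 * (1 + lam) ^ 2 := by
      rw [hρ1]
      field_simp
      norm_num
    rw [h4]
    nlinarith
  have hlow : Λ (29 / 10) ≤ lam := by
    have h1 := (hBND (zp (29 / 10) (U (29 / 10)))).2.2.2.2 (by rw [hzre])
    have h2 := Complex.abs_im_le_norm (E (zp (29 / 10) (U (29 / 10))))
    have h3 := neg_abs_le (E (zp (29 / 10) (U (29 / 10)))).im
    simp only [hΛ]
    linarith
  have hsub : Set.Icc ρ1 (29 / 10) ⊆ Set.Ioc 0 (29 / 10) := fun y hy =>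
    ⟨lt_of_lt_of_le hρ10 hy.1, hy.2⟩
  obtain ⟨ρ, hρ, hval⟩ := intermediate_value_Icc' (by linarith : ρ1 ≤ 29 / 10)
    (hΛc.mono hsub) ⟨hlow, hhigh⟩
  have hρ' := hsub hρ
  obtain ⟨h1, h2, h3, -⟩ := hU ρ hρ'.1 hρ'.2
  refine ⟨ρ, U ρ, hρ'.1, hρ'.2, h1.le, h2.le, ?_⟩
  rw [hTform] at h3
  have h4 : (E (zp ρ (U ρ))).re = 0 := by
    have h5 : 24 * (1 + U ρ ^ 2) ^ 2 ≠ 0 := by positivity
    have h6 : ρ ^ 2 ≠ 0 := pow_ne_zero 2 hρ'.1.ne'
    rcases mul_eq_zero.1 h3 with h | h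
    · exact absurd h h5
    · rcases mul_eq_zero.1 h with h | h
      · exact absurd h h6
      · exact h
  apply Complex.ext
  · rw [h4]
    simp
  · have h5 : (E (zp ρ (U ρ))).im = -lam := by
      simp only [hΛ] at hval
      linarith
    rw [h5]
    simp

end Pool.Agent.Q238.DA
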