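import Pool.Agent.Q276.DA.Stm

set_option autoImplicit false

/-! Project DA (helper276), job DA-MODE: modular transformation of `E`. -/

namespace Pool.Agent.Q238.DA

open Complex Pool.Agent.Q276.DA EisensteinSeries UpperHalfPlane

theorem tau_im {z : ℂ} (hz : 0 < z.re) : 0 < (Complex.I * z / (2 * Real.pi)).im := by
  have h : Complex.I * z / (2 * Real.pi) = ((1 / (2 * Real.pi) : ℝ) : ℂ) * (Complex.I * z) := by
    push_cast
    ring
  rw [h, Complex.im_ofReal_mul]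
  have h2 : (Complex.I * z).im = z.re := by simp
  rw [h2]
  have := Real.pi_pos
  positivity

theorem E_eq (z : ℂ) (τ : ℍ) (hτ : (τ : ℂ) = Complex.I * z / (2 * Real.pi)) :
    G2 τ = 2 * riemannZeta 2 - 8 * Real.pi ^ 2 * E z := by
  rw [G2_eq_tsum_cexp]
  congr 2
  unfold E
  rw [tsum_pnat_eq_tsum_succ (f := fun n => ((ArithmeticFunction.sigma 1 n : ℕ) : ℂ) *
    cexp (2 * Real.pi * Complex.I * τ) ^ n)]
  apply tsum_congr
  intro n
  rw [ArithmeticFunction.sigma_one_apply, ← Complex.exp_nat_mul]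
  unfold sg
  congr 2
  rw [hτ]
  have := Real.pi_pos.ne'
  push_cast
  field_simp
  linear_combination z * Complex.I_sq

theorem t_MODE : S_MODE := by
  intro z hz
  have hz0 : z ≠ 0 := by
    intro h
    rw [h] at hz
    simp at hz
  have hpi : (Real.pi : ℂ) ≠ 0 := by exact_mod_cast Real.pi_pos.ne'
  set τ : ℍ := ⟨Complex.I * z / (2 * Real.pi), tau_im hz⟩ with hτ
  have hτc : (τ : ℂ) = Complex.I * z / (2 * Real.pi) := rfl
  have h1 := G2_S_transform τ
  have hS : ((ModularGroup.S • τ : ℍ) : ℂ) =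
      Complex.I * (4 * Real.pi ^ 2 / z) / (2 * Real.pi) := by
    rw [UpperHalfPlane.modular_S_smul, UpperHalfPlane.coe_mk, hτc]
    field_simp
    linear_combination (-4) * Complex.I_sq
  rw [E_eq z τ hτc, E_eq (4 * Real.pi ^ 2 / z) _ hS, hτc, riemannZeta_two] at h1
  have hI : Complex.I ^ 2 = -1 := Complex.I_sq
  have h2 : ((Complex.I * z / (2 * Real.pi)) ^ 2)⁻¹ = -(4 * (Real.pi : ℂ) ^ 2 / z ^ 2) := by
    rw [div_pow, mul_pow, hI]
    field_simp
    norm_num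
  have h3 : -2 * (Real.pi : ℂ) * Complex.I / (Complex.I * z / (2 * Real.pi)) =
      -(4 * (Real.pi : ℂ) ^ 2 / z) := by
    field_simp
    norm_num
  rw [h2, h3] at h1
  have h4 : (8 * (Real.pi : ℂ) ^ 2) ≠ 0 := mul_ne_zero (by norm_num) (pow_ne_zero 2 hpi)
  apply mul_left_cancel₀ h4
  have h5 : 8 * (Real.pi : ℂ) ^ 2 * E z = 2 * ((Real.pi : ℂ) ^ 2 / 6) - (-(4 * (Real.pi : ℂ) ^ 2 / z ^ 2) *
      (2 * ((Real.pi : ℂ) ^ 2 / 6) - 8 * (Real.pi : ℂ) ^ 2 * E (4 * (Real.pi : ℂ) ^ 2 / z)) -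
      -(4 * (Real.pi : ℂ) ^ 2 / z)) := by
    linear_combination -h1
  rw [h5]
  field_simp
  ring

end Pool.Agent.Q238.DA
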